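import Pool.Agent.Helper53.DV.PFI
import Pool.Agent.Helper69.FF.All

/-!
# MP_d684b1_an: Dvoretzky's theorem with polynomial dependence on `ε` for maxima of cotype `q` seminorms

If the norm of `X` is, up to the factor `1 + ε/4`, the maximum of `m` seminorms which satisfy the cotype `q` inequality
with constant `A`, and `dim X ≥ (C_k A ε ^ (-(3k+7)/2) (1 + log m) ^ 3) ^ q`, then `X` has a `k`-dimensional subspace
within Banach-Mazur distance `1 + ε` of `ℓ_2^k`.
-/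

set_option autoImplicit false

open scoped BigOperators

namespace Pool.Agent.Results.MP_d684b1_an.CotypeSums

/-- The Banach-Mazur distance of two normed spaces: the infimum of `‖T‖ ‖T⁻¹‖` over all (continuous) linear
isomorphisms `T : X → Y`. -/
noncomputable def bmDist (X Y : Type) [NormedAddCommGroup X] [NormedSpace ℝ X] [NormedAddCommGroup Y]
    [NormedSpace ℝ Y] : ℝ :=
  sInf {r : ℝ | ∃ T : X ≃L[ℝ] Y, r = ‖(T : X →L[ℝ] Y)‖ * ‖(T.symm : Y →L[ℝ] X)‖}

/-- `X` has a `k`-dimensional subspace within Banach-Mazur distance `1 + ε` of `ℓ_2^k`. -/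
def HasAlmostEuclidean (k : ℕ) (ε : ℝ) (X : Type) [NormedAddCommGroup X] [NormedSpace ℝ X] : Prop :=
  ∃ E : Submodule ℝ X, Module.finrank ℝ E = k ∧ bmDist E (EuclideanSpace ℝ (Fin k)) ≤ 1 + ε

/-- The cotype `q` inequality with constant `A` for the seminorm `p`: `(∑ p(y_i)^q)^(1/q)` is at most `A` times the
square root of the average of `p(∑ ± y_i)²` over all signs, for all finite systems of vectors. -/
def CotypeIneq {X : Type} [AddCommGroup X] [Module ℝ X] (q A : ℝ) (p : Seminorm ℝ X) : Prop :=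
  ∀ (N : ℕ) (y : Fin N → X), (∑ i, p (y i) ^ q) ^ (1 / q) ≤
    A * Real.sqrt ((∑ s : Fin N → Bool, p (∑ i, (if s i then (1 : ℝ) else -1) • y i) ^ 2) / (2 : ℝ) ^ N)

/-- Up to the factor `R` the norm of `X` is the maximum of `m` seminorms (each at most the norm) which satisfy the
cotype `q` inequality with constant `A`. -/
def CotypeApprox (m : ℕ) (q A R : ℝ) (X : Type) [NormedAddCommGroup X] [NormedSpace ℝ X] : Prop :=
  ∃ p : Fin m → Seminorm ℝ X, (∀ j x, p j x ≤ ‖x‖) ∧ (∀ x, ∃ j, ‖x‖ ≤ R * p j x) ∧ ∀ j, CotypeIneq q A (p j)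

/-- For every `k ≥ 2` there is `C > 0` such that, for all `0 < ε ≤ 1/2`, `m ≥ 1`, `q ≥ 1`, `A ≥ 1`, every normed space
whose norm is up to the factor `1 + ε/4` a maximum of `m` seminorms with the cotype `q` inequality with constant `A` and
whose dimension is at least `(C A ε ^ (-(3k+7)/2) (1 + log m) ^ 3) ^ q` has a `k`-dimensional subspace within
Banach-Mazur distance `1 + ε` of `ℓ_2^k`. -/
theorem result (k : ℕ) (hk : 2 ≤ k) : ∃ C : ℝ, 0 < C ∧ ∀ ε : ℝ, 0 < ε → ε ≤ 1 / 2 →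
    ∀ (X : Type) [NormedAddCommGroup X] [NormedSpace ℝ X] [FiniteDimensional ℝ X] (m : ℕ) (q A : ℝ),
      1 ≤ m → 1 ≤ q → 1 ≤ A → CotypeApprox m q A (1 + ε / 4) X →
      (C * A * ε ^ (-(3 * (k : ℝ) + 7) / 2) * (1 + Real.log m) ^ 3) ^ q ≤ Module.finrank ℝ X →
      HasAlmostEuclidean k ε X := by
  obtain ⟨d, rfl⟩ : ∃ d, k = d + 1 := ⟨k - 1, by omega⟩
  obtain ⟨C, hC, h⟩ := FF.allT2 d (by omega)
  refine ⟨C, hC, fun ε h0 h1 X _ _ _ m q A hm hq hA hp hX => ?_⟩
  obtain ⟨p, hp1, hp2, hp3⟩ := hp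
  have he : -(3 * ((d + 1 : ℕ) : ℝ) + 7) / 2 = -(3 * (d : ℝ) + 10) / 2 := by push_cast; ring
  rw [he] at hX
  refine DV.FI.almost h0 (h ε h0 h1 X m p q A hm hq hA hp1 hp2 (fun j => ?_) hX)
  intro N y
  have h3 := hp3 j N y
  have hq0 : 0 < q := by linarith
  have hS : 0 ≤ ∑ i, p j (y i) ^ q := Finset.sum_nonneg fun i _ => Real.rpow_nonneg (apply_nonneg _ _) _
  have h4 : (∑ i, p j (y i) ^ q) = ((∑ i, p j (y i) ^ q) ^ (1 / q)) ^ q := by
    rw [← Real.rpow_mul hS, one_div, inv_mul_cancel₀ hq0.ne', Real.rpow_one]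
  rw [h4]
  exact Real.rpow_le_rpow (Real.rpow_nonneg hS _) h3 hq0.le

end Pool.Agent.Results.MP_d684b1_an.CotypeSums
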