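import Pool.Agent.Helper53.DV.PFI
import Pool.Agent.Helper69.FF.All

/-!
# MP_d684b1_an: Dvoretzky's theorem with polynomial dependence on `ε` for spaces with few facets

If the unit ball of `X` is, up to the factor `1 + ε/4`, an intersection of `m` symmetric slabs and
`dim X ≥ C_k ε ^ (-(k+5)/2) (1 + log m) ^ 5`, then `X` has a `k`-dimensional subspace within Banach-Mazur distance
`1 + ε` of `ℓ_2^k`.
-/

set_option autoImplicit false

namespace Pool.Agent.Results.MP_d684b1_an.FewFacets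

/-- The Banach-Mazur distance of two normed spaces: the infimum of `‖T‖ ‖T⁻¹‖` over all (continuous) linear
isomorphisms `T : X → Y`. -/
noncomputable def bmDist (X Y : Type) [NormedAddCommGroup X] [NormedSpace ℝ X] [NormedAddCommGroup Y]
    [NormedSpace ℝ Y] : ℝ :=
  sInf {r : ℝ | ∃ T : X ≃L[ℝ] Y, r = ‖(T : X →L[ℝ] Y)‖ * ‖(T.symm : Y →L[ℝ] X)‖}

/-- `X` has a `k`-dimensional subspace within Banach-Mazur distance `1 + ε` of `ℓ_2^k`. -/
def HasAlmostEuclidean (k : ℕ) (ε : ℝ) (X : Type) [NormedAddCommGroup X] [NormedSpace ℝ X] : Prop :=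
  ∃ E : Submodule ℝ X, Module.finrank ℝ E = k ∧ bmDist E (EuclideanSpace ℝ (Fin k)) ≤ 1 + ε

/-- Up to the factor `R` the unit ball of `X` is an intersection of `m` symmetric slabs: there are `m` linear
functionals `f j` of norm at most one with `‖x‖ ≤ R max_j |f j x|` for all `x`. -/
def SlabApprox (m : ℕ) (R : ℝ) (X : Type) [NormedAddCommGroup X] [NormedSpace ℝ X] : Prop :=
  ∃ f : Fin m → X →ₗ[ℝ] ℝ, (∀ j x, |f j x| ≤ ‖x‖) ∧ ∀ x, ∃ j, ‖x‖ ≤ R * |f j x|

/-- For every `k ≥ 2` there is `C > 0` such that, for all `0 < ε ≤ 1/2` and `m ≥ 1`, every normed space whose unit ball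
is up to the factor `1 + ε/4` an intersection of `m` symmetric slabs and whose dimension is at least
`C ε ^ (-(k+5)/2) (1 + log m) ^ 5` has a `k`-dimensional subspace within Banach-Mazur distance `1 + ε` of `ℓ_2^k`. -/
theorem result (k : ℕ) (hk : 2 ≤ k) : ∃ C : ℝ, 0 < C ∧ ∀ ε : ℝ, 0 < ε → ε ≤ 1 / 2 →
    ∀ (X : Type) [NormedAddCommGroup X] [NormedSpace ℝ X] [FiniteDimensional ℝ X] (m : ℕ), 1 ≤ m →
      SlabApprox m (1 + ε / 4) X →
      C * ε ^ (-((k : ℝ) + 5) / 2) * (1 + Real.log m) ^ 5 ≤ Module.finrank ℝ X →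
      HasAlmostEuclidean k ε X := by
  obtain ⟨d, rfl⟩ : ∃ d, k = d + 1 := ⟨k - 1, by omega⟩
  obtain ⟨C, hC, h⟩ := FF.allT1 d (by omega)
  refine ⟨C, hC, fun ε h0 h1 X _ _ _ m hm hf hX => ?_⟩
  obtain ⟨f, hf1, hf2⟩ := hf
  have he : -(((d + 1 : ℕ) : ℝ) + 5) / 2 = -((d : ℝ) + 6) / 2 := by push_cast; ring
  rw [he] at hX
  exact DV.FI.almost h0 (h ε h0 h1 X m f hm hf1 hf2 hX)

end Pool.Agent.Results.MP_d684b1_an.FewFacets
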