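import Pool.Agent.Helper66.DS.Core3
import Pool.Agent.Helper66.DS.Lower

/-!
# MP_d684b1_an: the order of `N(k, ε)` for symmetric norms, with one universal subspace

For every `k ≥ 2` the dimension needed for `(1 + ε)`-Euclidean subspaces of dimension `k` in spaces
whose norm is invariant under the permutations of the coordinates is of the exact order
`ε ^ (-(k - 1) / 2)`, and one linear map works for all such norms.
-/

set_option autoImplicit false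

namespace Pool.Agent.Results.MP_d684b1_an.SymmetricNorms

/-- `p` is a norm on `ℝ ^ n` which is invariant under all permutations of the coordinates. -/
def IsSymmetricNorm {n : ℕ} (p : Seminorm ℝ (Fin n → ℝ)) : Prop :=
  (∀ x : Fin n → ℝ, p x = 0 → x = 0) ∧
    ∀ (σ : Equiv.Perm (Fin n)) (x : Fin n → ℝ), p (fun i => x (σ i)) = p x

/-- The image of `T` with the norm `p` is within Banach-Mazur distance `1 + ε` of `ℓ_2^k`, by means
of `T`. -/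
def IsAlmostEuclidean {k n : ℕ} (ε : ℝ) (T : EuclideanSpace ℝ (Fin k) →ₗ[ℝ] (Fin n → ℝ))
    (p : Seminorm ℝ (Fin n → ℝ)) : Prop :=
  ∃ a : ℝ, 0 < a ∧ ∀ ξ : EuclideanSpace ℝ (Fin k),
    a * ‖ξ‖ ≤ p (T ξ) ∧ p (T ξ) ≤ (1 + ε) * a * ‖ξ‖

/-- The least `n` such that every symmetric norm on `ℝ ^ n` has a `k`-dimensional
`(1 + ε)`-Euclidean subspace. -/
noncomputable def NSym (k : ℕ) (ε : ℝ) : ℕ :=
  sInf {n : ℕ | ∀ p : Seminorm ℝ (Fin n → ℝ), IsSymmetricNorm p →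
    ∃ T : EuclideanSpace ℝ (Fin k) →ₗ[ℝ] (Fin n → ℝ), IsAlmostEuclidean ε T p}

/-- The maximum norm is a symmetric norm. -/
theorem isSymmetricNorm_sup (n : ℕ) : IsSymmetricNorm (normSeminorm ℝ (Fin n → ℝ)) := by
  refine ⟨fun x hx => ?_, fun σ x => ?_⟩
  · rw [coe_normSeminorm] at hx
    exact norm_eq_zero.1 hx
  · rw [coe_normSeminorm]
    refine le_antisymm ?_ ?_
    · refine (pi_norm_le_iff_of_nonneg (norm_nonneg _)).2 fun i => ?_
      exact norm_le_pi_norm x (σ i)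
    · refine (pi_norm_le_iff_of_nonneg (norm_nonneg _)).2 fun i => ?_
      have := norm_le_pi_norm (fun j => x (σ j)) (σ.symm i)
      simpa using this

/-- For every `k ≥ 2`: one linear map is almost Euclidean for all symmetric norms at once as soon
as `n ≥ C ε ^ (-(k - 1) / 2)`, and `N` restricted to symmetric norms has exactly this order. -/
theorem result (k : ℕ) (hk : 2 ≤ k) : ∃ c C : ℝ, 0 < c ∧ 0 < C ∧ ∀ ε : ℝ, 0 < ε → ε ≤ 1 →
    (∀ n : ℕ, C * ε ^ (-((k : ℝ) - 1) / 2) ≤ n →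
      ∃ T : EuclideanSpace ℝ (Fin k) →ₗ[ℝ] (Fin n → ℝ), ∀ p : Seminorm ℝ (Fin n → ℝ),
        IsSymmetricNorm p → IsAlmostEuclidean ε T p) ∧
    c * ε ^ (-((k : ℝ) - 1) / 2) ≤ NSym k ε ∧ (NSym k ε : ℝ) ≤ C * ε ^ (-((k : ℝ) - 1) / 2) := by
  obtain ⟨d, rfl⟩ : ∃ d, k = d + 1 := ⟨k - 1, by omega⟩
  have hd : 1 ≤ d := by omega
  obtain ⟨C, hC, hup⟩ := Pool.Agent.Helper66.DS.Core.final_thm d hd
  obtain ⟨c, hc, hlo⟩ := Pool.Agent.Helper66.DS.Core.cube_lower (d := d) hd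
  have hexp : (-(((d + 1 : ℕ) : ℝ) - 1) / 2 : ℝ) = -(d : ℝ) / 2 := by
    push_cast
    ring
  refine ⟨c, C + 1, hc, by linarith, ?_⟩
  intro ε hε0 hε1
  rw [hexp]
  set A : ℝ := ε ^ (-(d : ℝ) / 2) with hA
  have hA1 : 1 ≤ A := by
    rw [hA]
    refine Real.one_le_rpow_of_pos_of_le_one_of_nonpos hε0 hε1 ?_
    have : (0 : ℝ) ≤ d := by positivity
    linarith
  have huniv : ∀ n : ℕ, C * A ≤ n →
      ∃ T : EuclideanSpace ℝ (Fin (d + 1)) →ₗ[ℝ] (Fin n → ℝ), ∀ p : Seminorm ℝ (Fin n → ℝ),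
        IsSymmetricNorm p → IsAlmostEuclidean ε T p := by
    intro n hn
    obtain ⟨T, hT⟩ := hup ε hε0 hε1 n hn
    exact ⟨T, fun p hp => hT p hp.1 hp.2⟩
  have hne : ∀ n : ℕ, C * A ≤ n → n ∈ {n : ℕ | ∀ p : Seminorm ℝ (Fin n → ℝ), IsSymmetricNorm p →
      ∃ T : EuclideanSpace ℝ (Fin (d + 1)) →ₗ[ℝ] (Fin n → ℝ), IsAlmostEuclidean ε T p} := by
    intro n hn p hp
    obtain ⟨T, hT⟩ := huniv n hn
    exact ⟨T, hT p hp⟩
  refine ⟨fun n hn => huniv n (le_trans ?_ hn), ?_, ?_⟩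
  · nlinarith
  · have hmem := Nat.sInf_mem (s := {n : ℕ | ∀ p : Seminorm ℝ (Fin n → ℝ), IsSymmetricNorm p →
      ∃ T : EuclideanSpace ℝ (Fin (d + 1)) →ₗ[ℝ] (Fin n → ℝ), IsAlmostEuclidean ε T p})
      ⟨⌈C * A⌉₊, hne _ (Nat.le_ceil _)⟩
    obtain ⟨T, a, ha, hT⟩ := hmem _ (isSymmetricNorm_sup _)
    exact hlo ε hε0 hε1 _ T a ha hT
  · have h1 : NSym (d + 1) ε ≤ ⌈C * A⌉₊ := Nat.sInf_le (hne _ (Nat.le_ceil _))
    have h2 : ((⌈C * A⌉₊ : ℕ) : ℝ) ≤ C * A + 1 :=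
      (Nat.ceil_lt_add_one (by positivity)).le
    have h3 : (NSym (d + 1) ε : ℝ) ≤ (⌈C * A⌉₊ : ℕ) := by exact_mod_cast h1
    nlinarith

end Pool.Agent.Results.MP_d684b1_an.SymmetricNorms
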