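import Pool.Agent.Helper53.DV.All

/-!
# MP_d684b1_an: the dependence on `ε` in Dvoretzky's theorem, exponent `2/3`

For every fixed `k` the number `N(k, ε)` of the problem satisfies
`log N(k, ε) ≤ C_k ε ^ (-2/3) log (1/ε) ^ 3`.
-/

set_option autoImplicit false

namespace Pool.Agent.Results.MP_d684b1_an.TwoThirds

/-- The Banach-Mazur distance of two normed spaces: the infimum of `‖T‖ ‖T⁻¹‖` over all (continuous) linear
isomorphisms `T : X → Y`. -/
noncomputable def bmDist (X Y : Type) [NormedAddCommGroup X] [NormedSpace ℝ X] [NormedAddCommGroup Y]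
    [NormedSpace ℝ Y] : ℝ :=
  sInf {r : ℝ | ∃ T : X ≃L[ℝ] Y, r = ‖(T : X →L[ℝ] Y)‖ * ‖(T.symm : Y →L[ℝ] X)‖}

/-- `X` has a `k`-dimensional subspace within Banach-Mazur distance `1 + ε` of `ℓ_2^k`. -/
def HasAlmostEuclidean (k : ℕ) (ε : ℝ) (X : Type) [NormedAddCommGroup X] [NormedSpace ℝ X] : Prop :=
  ∃ E : Submodule ℝ X, Module.finrank ℝ E = k ∧ bmDist E (EuclideanSpace ℝ (Fin k)) ≤ 1 + ε

/-- The number `N(k, ε)`: the least `n` such that every `n`-dimensional normed space has a `k`-dimensional subspace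
within Banach-Mazur distance `1 + ε` of `ℓ_2^k`. -/
noncomputable def N (k : ℕ) (ε : ℝ) : ℕ :=
  sInf {n : ℕ | ∀ (X : Type) [NormedAddCommGroup X] [NormedSpace ℝ X] [FiniteDimensional ℝ X],
    Module.finrank ℝ X = n → HasAlmostEuclidean k ε X}

/-- For every `k ≥ 2` there is `C` with: for `0 < ε ≤ 1/2` every normed space of dimension at least
`exp (C ε ^ (-2/3) log (1/ε) ^ 3)` has a `k`-dimensional subspace within Banach-Mazur distance `1 + ε` of `ℓ_2^k`, and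
`N(k, ε)` is at most this number. -/
theorem result (k : ℕ) (hk : 2 ≤ k) : ∃ C : ℝ, 0 < C ∧ ∀ ε : ℝ, 0 < ε → ε ≤ 1 / 2 →
    (∀ (X : Type) [NormedAddCommGroup X] [NormedSpace ℝ X] [FiniteDimensional ℝ X],
      Real.exp (C * ε ^ (-(2 / 3 : ℝ)) * Real.log (1 / ε) ^ 3) ≤ Module.finrank ℝ X → HasAlmostEuclidean k ε X) ∧
    (N k ε : ℝ) ≤ Real.exp (C * ε ^ (-(2 / 3 : ℝ)) * Real.log (1 / ε) ^ 3) := by
  obtain ⟨C, hC, h⟩ := DV.all k hk
  refine ⟨C, hC, fun ε h0 h1 => ⟨fun X _ _ _ hX => ?_, (h ε h0 h1).2⟩⟩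
  exact (h ε h0 h1).1 (Module.finrank ℝ X) hX X rfl

end Pool.Agent.Results.MP_d684b1_an.TwoThirds
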